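import Pool.Agent.Helper7.TL.Fix

set_option autoImplicit false

open scoped commutatorElement

namespace Pool.Agent.Helper7.TL

open Subgroup Pool.Agent.Helper12.TwoLen

section orb

variable {X M : Type} [Group X] [CommGroup M] (φ : X →* MulAut M)

/-- the orbit of a subgroup -/
def Orb (N0 : Subgroup M) : Type := {N : Subgroup M // ∃ g : X, N = N0.map (φ g).toMonoidHom}

theorem map_map_mul (N : Subgroup M) (x y : X) :
    (N.map (φ y).toMonoidHom).map (φ x).toMonoidHom = N.map (φ (x * y)).toMonoidHom := by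
  rw [Subgroup.map_map, map_mul]; rfl

/-- action on the orbit -/
def act (N0 : Subgroup M) : X →* Equiv.Perm (Orb φ N0) :=
  MonoidHom.toHomPerm
    { toFun := fun x => (fun N => ⟨N.1.map (φ x).toMonoidHom, by
        obtain ⟨g, hg⟩ := N.2
        exact ⟨x * g, by rw [hg, map_map_mul]⟩⟩ : Orb φ N0 → Orb φ N0)
      map_one' := by
        funext N
        apply Subtype.ext
        show N.1.map (φ 1).toMonoidHom = N.1
        ext m
        simp [Subgroup.mem_map]
      map_mul' := by
        intro x y
        funext N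
        apply Subtype.ext
        exact (map_map_mul φ N.1 x y).symm }

theorem act_val (N0 : Subgroup M) (x : X) (N : Orb φ N0) :
    (act φ N0 x N).1 = N.1.map (φ x).toMonoidHom := rfl

instance [Finite M] (N0 : Subgroup M) : Finite (Orb φ N0) := by
  unfold Orb; infer_instance

theorem act_transitive (N0 : Subgroup M) (i j : Orb φ N0) : ∃ x : X, act φ N0 x i = j := by
  obtain ⟨g, hg⟩ := i.2
  obtain ⟨h, hh⟩ := j.2
  refine ⟨h * g⁻¹, ?_⟩
  apply Subtype.ext
  rw [act_val, hg, hh, map_map_mul]
  simp

end orb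

theorem fxS_conj {X M : Type*} [Group X] [CommGroup M] (φ : X →* MulAut M) (C : Subgroup X)
    (g : X) : fxS φ (C.map (MulAut.conj g).toMonoidHom) = (fxS φ C).map (φ g).toMonoidHom := by
  ext m
  rw [mem_fxS, Subgroup.mem_map]
  constructor
  · intro h
    refine ⟨φ g⁻¹ m, ?_, ?_⟩
    · rw [mem_fxS]
      intro c hc
      have := congrArg (φ g⁻¹) (h (g * c * g⁻¹) ⟨c, hc, rfl⟩)
      rw [← MulAut.mul_apply, ← map_mul] at this
      rw [← MulAut.mul_apply, ← map_mul]
      simpa [mul_assoc] using this
    · show φ g (φ g⁻¹ m) = m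
      rw [← MulAut.mul_apply, ← map_mul]; simp
  · rintro ⟨n, hn, rfl⟩ c hc
    obtain ⟨c, hc, rfl⟩ := hc
    rw [mem_fxS] at hn
    show φ (g * c * g⁻¹) (φ g n) = φ g n
    rw [← MulAut.mul_apply, ← map_mul]
    have : g * c * g⁻¹ * g = g * c := by group
    rw [this, map_mul, MulAut.mul_apply, hn c hc]

/-- Faithful version. -/
theorem faithful (hG : LemG) (k D0 : ℕ)
    (h0 : ∀ (X I : Type) [Group X] [Finite X] [Group.IsSolvable X] [Finite I]
      (φ : X →* Equiv.Perm I) (S : Set X), Subgroup.closure S = ⊤ →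
      (∀ i j : I, ∃ x : X, φ x i = j) →
      (∀ σ ∈ S, {i : I | φ σ i ≠ i}.ncard ≤ 3 * k) →
      ∀ x ∈ derivedSeries X D0, φ x = 1)
    (X M : Type) [Group X] [Finite X] [Group.IsSolvable X] [CommGroup M] [Finite M]
    (φ : X →* MulAut M) (hφ : Function.Injective φ) (S : Set X) (hS : Subgroup.closure S = ⊤)
    (hirr : ∀ U : Subgroup M, (∀ x : X, ∀ u ∈ U, φ x u ∈ U) → U = ⊥ ∨ U = ⊤)
    (hT : ∀ σ ∈ S, ∃ T : Subgroup M, (∀ t ∈ T, φ σ t = t) ∧ T.index ≤ k) :
    derivedSeries X (2 + (((k * k) * (k * k)).factorial + ((k * k).factorial +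
      (D0 + k.factorial)))) = ⊥ := by
  classical
  -- elementary consequences of faithfulness
  have hperm : ∀ n : ℕ, Nat.card M ≤ n → derivedSeries X n.factorial = ⊥ := by
    intro n hn
    rw [eq_bot_iff]
    intro x hx
    have h1 := perm_trivial ((MulAut.toPerm M).comp φ) n hn x hx
    have h2 : φ x = 1 := by
      ext m
      exact DFunLike.congr_fun h1 m
    rw [Subgroup.mem_bot]
    exact hφ (by rw [h2, map_one])
  have hidx : ∀ σ ∈ S, (fx φ σ).index ≤ k := by
    intro σ hσ
    obtain ⟨T, hT1, hT2⟩ := hT σ hσ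
    refine le_trans ?_ hT2
    apply Nat.le_of_dvd (Nat.pos_of_ne_zero index_ne_zero_of_finite)
    exact index_dvd_of_le (fun t ht => hT1 t ht)
  have hmono : ∀ a b : ℕ, a ≤ b → derivedSeries X a = ⊥ → derivedSeries X b = ⊥ := by
    intro a b hab ha
    exact le_bot_iff.mp (ha ▸ derivedSeries_antitone X hab)
  by_cases hd2 : derivedSeries X 2 = ⊥
  · exact hmono _ _ (by omega) hd2
  -- derived length
  have hex : ∃ n : ℕ, derivedSeries X n = ⊥ := Group.IsSolvable.solvable
  obtain ⟨d, hd1, hd3⟩ : ∃ d : ℕ, derivedSeries X (d + 3) = ⊥ ∧ derivedSeries X (d + 2) ≠ ⊥ := by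
    have h1 := Nat.find_spec hex
    have h2 : 3 ≤ Nat.find hex := by
      by_contra hlt
      exact hd2 (hmono _ _ (by omega) h1)
    refine ⟨Nat.find hex - 3, ?_, ?_⟩
    · rwa [Nat.sub_add_cancel h2]
    · exact Nat.find_min hex (by omega)
  rcases hG X d S hS hd1 hd3 with ⟨B, hBn, hBc, β, hβ, σ0, hσ0, hα⟩ | ⟨γ, γ', σ, hσ, hζ1, hζc⟩
  · -- Case A
    have hαB : ⁅β, σ0⁆ ∈ B := by
      rw [commutatorElement_def]
      have := B.mul_mem hβ (hBn.conj_mem _ (B.inv_mem hβ) σ0)
      simpa [mul_assoc] using this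
    have hαi : (fx φ ⁅β, σ0⁆).index ≤ k * k := by
      refine le_trans (index_fx_comm _ _) ?_
      exact Nat.mul_le_mul (hidx _ hσ0) (hidx _ hσ0)
    have hMn : Nontrivial M := by
      by_contra hM
      rw [not_nontrivial_iff_subsingleton] at hM
      apply hα
      apply hφ
      ext m
      exact Subsingleton.elim _ _
    have hne : fxS φ (⊥ : Subgroup X) ≠ ⊥ := by
      have : fxS φ (⊥ : Subgroup X) = ⊤ := by
        rw [eq_top_iff]
        intro m _ c hc
        rw [Subgroup.mem_bot] at hc
        rw [hc, map_one]; rfl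
      rw [this]
      exact top_ne_bot
    obtain ⟨B0, ⟨hB0B, hB0⟩, hB0max⟩ :=
      (Set.toFinite {C : Subgroup X | C ≤ B ∧ fxS φ C ≠ ⊥}).exists_maximalFor id _
        ⟨⊥, bot_le, hne⟩
    have hmax0 : ∀ C : Subgroup X, C ≤ B → B0 ≤ C → fxS φ C ≠ ⊥ → C ≤ B0 := by
      intro C hC hBC hCn
      exact hB0max (j := C) ⟨hC, hCn⟩ hBC
    set N0 : Subgroup M := fxS φ B0 with hN0
    -- the data of the orbit
    have hconjB : ∀ g : X, ∀ C : Subgroup X, C ≤ B → C.map (MulAut.conj g).toMonoidHom ≤ B := by
      intro g C hC x hx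
      obtain ⟨c, hc, rfl⟩ := hx
      exact hBn.conj_mem _ (hC hc) g
    have hmapne : ∀ g : X, ∀ N : Subgroup M, N ≠ ⊥ → N.map (φ g).toMonoidHom ≠ ⊥ := by
      intro g N hN h
      apply hN
      rwa [Subgroup.map_eq_bot_iff_of_injective _ (φ g).injective] at h
    have hind : Indep (fun i : Orb φ N0 => i.1) := by
      refine indep_fix (φ := φ) (fun i : Orb φ N0 => i.1)
        (fun i => B0.map (MulAut.conj (Classical.choose i.2)).toMonoidHom) B hBc
        (fun i j h => Subtype.ext h) (fun i => hconjB _ _ hB0B) ?_ ?_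
      · intro i
        show i.1 = _
        rw [fxS_conj]
        exact Classical.choose_spec i.2
      · intro i C hC hBC hCn
        set g := Classical.choose i.2
        have h1 := hmax0 (C.map (MulAut.conj g⁻¹).toMonoidHom) (hconjB _ _ hC) ?_ ?_
        · intro c hc
          refine ⟨g⁻¹ * c * g, ?_, ?_⟩
          · apply h1
            refine ⟨c, hc, ?_⟩
            simp
          · simp [mul_assoc]
        · intro b hb
          refine ⟨g * b * g⁻¹, hBC ⟨b, hb, rfl⟩, ?_⟩
          simp [mul_assoc]
        · rw [fxS_conj]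
          exact hmapne _ _ hCn
    by_cases hsub : ∀ i j : Orb φ N0, i = j
    · -- single element orbit
      have hinv : ∀ x : X, ∀ u ∈ N0, φ x u ∈ N0 := by
        intro x u hu
        have h1 := hsub ⟨N0.map (φ x).toMonoidHom, x, rfl⟩
          ⟨N0.map (φ 1).toMonoidHom, 1, rfl⟩
        have h2 : N0.map (φ x).toMonoidHom = N0.map (φ 1).toMonoidHom := congrArg Subtype.val h1
        have h3 : φ x u ∈ N0.map (φ x).toMonoidHom := ⟨u, hu, rfl⟩
        rw [h2] at h3
        obtain ⟨w, hw, hw'⟩ := h3
        have : φ x u = w := by rw [← hw']; simp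
        rw [this]; exact hw
      have htop : N0 = ⊤ := (hirr N0 hinv).resolve_left hB0
      have hB0bot : B0 = ⊥ := by
        rw [eq_bot_iff]
        intro b hb
        rw [Subgroup.mem_bot]
        apply hφ
        rw [map_one]
        ext m
        have : m ∈ N0 := by rw [htop]; trivial
        exact this b hb
      have hz : fxS φ (Subgroup.zpowers ⁅β, σ0⁆) = ⊥ := by
        by_contra hne'
        have h1 := hmax0 (Subgroup.zpowers ⁅β, σ0⁆) (by simpa using hαB)
          (by rw [hB0bot]; exact bot_le) hne'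
        rw [hB0bot] at h1
        have h2 := h1 (Subgroup.mem_zpowers _)
        rw [Subgroup.mem_bot] at h2
        exact hα h2
      have hfx : fx φ ⁅β, σ0⁆ = ⊥ := by
        rw [eq_bot_iff, ← hz]
        intro m hm
        have h7 : Subgroup.zpowers ⁅β, σ0⁆ ≤ (MulAction.stabilizer (MulAut M) m).comap φ := by
          rw [Subgroup.zpowers_le]
          exact hm
        intro c hc
        exact h7 hc
      rw [hfx, index_bot] at hαi
      exact hmono _ _ (by omega) (hperm _ hαi)
    · -- at least two elements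
      push Not at hsub
      obtain ⟨i, j, hij⟩ := hsub
      obtain ⟨x, hx⟩ := act_transitive φ N0 i j
      have hπ : ∀ y : X, ∀ i : Orb φ N0, ∀ v ∈ i.1, φ y v ∈ (act φ N0 y i).1 := by
        intro y i v hv
        rw [act_val]
        exact ⟨v, hv, rfl⟩
      obtain ⟨σ, hσ, a, ha⟩ : ∃ σ ∈ S, ∃ a, act φ N0 σ a ≠ a := by
        by_contra hcon
        push Not at hcon
        have h1 : Subgroup.closure S ≤ (act φ N0).ker := by
          rw [Subgroup.closure_le]
          intro s hs
          rw [SetLike.mem_coe, MonoidHom.mem_ker]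
          ext a
          rw [hcon s hs a]; rfl
        rw [hS] at h1
        have h2 : x ∈ (act φ N0).ker := h1 (Subgroup.mem_top x)
        rw [MonoidHom.mem_ker] at h2
        rw [h2] at hx
        exact hij hx
      have hca : Nat.card a.1 ≤ k :=
        le_trans (card_le_of_moved hind (φ σ) (act φ N0 σ) (hπ σ) (fx φ σ) (fun t ht => ht) a ha)
          (hidx σ hσ)
      have hcard : ∀ i : Orb φ N0, Nat.card i.1 ≤ k := by
        intro i
        obtain ⟨y, hy⟩ := act_transitive φ N0 a i
        have h1 : i.1 = a.1.map (φ y).toMonoidHom := by rw [← hy, act_val]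
        rw [h1]
        have h2 : Nat.card (a.1.map (φ y).toMonoidHom) = Nat.card a.1 :=
          Subgroup.card_map_of_injective (φ y).injective
        omega
      have hcard2 : ∀ i : Orb φ N0, 2 ≤ Nat.card i.1 := by
        intro i
        obtain ⟨g, hg⟩ := i.2
        have h1 : i.1 ≠ ⊥ := by rw [hg]; exact hmapne _ _ hB0
        have h2 := (Subgroup.one_lt_card_iff_ne_bot i.1).mpr h1
        omega
      have hmoved : ∀ σ ∈ S, {i : Orb φ N0 | act φ N0 σ i ≠ i}.ncard ≤ 3 * k := by
        intro σ hσ
        refine le_trans (moved_le hind (φ σ) (act φ N0 σ) (hπ σ) (fx φ σ) (fun t ht => ht) hcard2) ?_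
        exact Nat.mul_le_mul_left 3 (hidx σ hσ)
      have hD0 := h0 X (Orb φ N0) (act φ N0) S hS (act_transitive φ N0) hmoved
      -- the span of the orbit
      have hspan : (⨆ i : Orb φ N0, i.1) = ⊤ := by
        refine (hirr _ ?_).resolve_left ?_
        · intro y u hu
          have h1 : (⨆ i : Orb φ N0, i.1).map (φ y).toMonoidHom ≤ ⨆ i : Orb φ N0, i.1 := by
            rw [Subgroup.map_iSup]
            refine iSup_le (fun i => ?_)
            exact le_iSup (fun i : Orb φ N0 => i.1) (act φ N0 y i)
          exact h1 ⟨u, hu, rfl⟩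
        · intro hbot
          have h1 : i.1 ≤ ⊥ := hbot ▸ le_iSup (fun i : Orb φ N0 => i.1) i
          have h2 := hcard2 i
          rw [le_bot_iff.mp h1] at h2
          simp at h2
      have hfin : derivedSeries X (D0 + k.factorial) = ⊥ := by
        rw [eq_bot_iff, derivedSeries_add]
        rintro _ ⟨y, hy, rfl⟩
        rw [Subgroup.mem_bot]
        apply hφ
        rw [map_one]
        have hstab : ∀ i : Orb φ N0, ∀ y : derivedSeries X D0, ∀ v ∈ i.1, φ y v ∈ i.1 := by
          intro i y v hv
          have h1 := hπ y i v hv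
          rw [hD0 y y.2] at h1
          exact h1
        have hfix : ∀ i : Orb φ N0, ∀ v ∈ i.1, φ (y : X) v = v := by
          intro i v hv
          let f : derivedSeries X D0 →* Equiv.Perm i.1 :=
            MonoidHom.toHomPerm
              { toFun := fun y => (fun v => ⟨φ y v, hstab i y v v.2⟩ : i.1 → i.1)
                map_one' := by
                  funext v; apply Subtype.ext
                  show φ ((1 : derivedSeries X D0) : X) v = v
                  simp
                map_mul' := by
                  intro a b; funext v; apply Subtype.ext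
                  show φ ((a * b : derivedSeries X D0) : X) v = φ (a : X) (φ (b : X) v)
                  rw [Subgroup.coe_mul, map_mul, MulAut.mul_apply] }
          have h1 := perm_trivial f k (hcard i) y hy
          have h2 := DFunLike.congr_fun h1 ⟨v, hv⟩
          exact congrArg Subtype.val h2
        have hall : (⊤ : Subgroup M) ≤ fx φ (y : X) := by
          rw [← hspan]
          exact iSup_le (fun i v hv => hfix i v hv)
        ext m
        exact hall (Subgroup.mem_top m)
      exact hmono _ _ (by omega) hfin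
  · -- Case B
    set ζ := ⁅⁅γ, σ⁆, γ'⁆ with hζ
    have hζi : (fx φ ζ).index ≤ (k * k) * (k * k) := by
      refine le_trans (index_fx_comm' _ _) ?_
      have h1 : (fx φ ⁅γ, σ⁆).index ≤ k * k :=
        le_trans (index_fx_comm _ _) (Nat.mul_le_mul (hidx _ hσ) (hidx _ hσ))
      exact Nat.mul_le_mul h1 h1
    have hinv : ∀ x : X, ∀ u ∈ fx φ ζ, φ x u ∈ fx φ ζ := by
      intro x u hu
      rw [mem_fx] at *
      rw [← MulAut.mul_apply, ← map_mul, ← (Subgroup.mem_center_iff.mp hζc x), map_mul,
        MulAut.mul_apply, hu]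
    have hbot : fx φ ζ = ⊥ := by
      refine (hirr _ hinv).resolve_right ?_
      intro htop
      apply hζ1
      apply hφ
      rw [map_one]
      ext m
      have : m ∈ fx φ ζ := by rw [htop]; trivial
      exact this
    rw [hbot, index_bot] at hζi
    exact hmono _ _ (by omega) (hperm _ hζi)

theorem lem1 (hG : LemG) (h0 : Lem0) : Lem1 := by
  intro k
  obtain ⟨D0, hD0⟩ := h0 (3 * k)
  refine ⟨2 + (((k * k) * (k * k)).factorial + ((k * k).factorial + (D0 + k.factorial))), ?_⟩
  intro X M _ _ _ _ _ φ S hS hirr hT x hx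
  have hs : Group.IsSolvable φ.range := Group.isSolvable_of_surjective φ.rangeRestrict_surjective
  have h1 := faithful hG k D0 hD0 φ.range M φ.range.subtype (Subgroup.subtype_injective _)
    (φ.rangeRestrict '' S) ?_ ?_ ?_
  · have h2 : φ.rangeRestrict x ∈ (derivedSeries X _).map φ.rangeRestrict :=
      Subgroup.mem_map_of_mem _ hx
    rw [map_derivedSeries_eq φ.rangeRestrict_surjective, h1, Subgroup.mem_bot] at h2
    exact congrArg Subtype.val h2
  · rw [← MonoidHom.map_closure, hS]
    exact Subgroup.map_top_of_surjective _ φ.rangeRestrict_surjective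
  · intro U hU
    exact hirr U (fun x u hu => hU (φ.rangeRestrict x) u hu)
  · rintro _ ⟨σ, hσ, rfl⟩
    obtain ⟨T, hT1, hT2⟩ := hT σ hσ
    exact ⟨T, hT1, hT2⟩

end Pool.Agent.Helper7.TL
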