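import Pool.Agent.Helper12.Defs

set_option autoImplicit false

open scoped commutatorElement

namespace Pool.Agent.Helper7.TL

open Subgroup

/-- The derived series of a finite solvable group of order at most `n` is trivial at `n`. -/
theorem derivedSeries_eq_bot_of_card_le {X : Type*} [Group X] [Finite X] [Group.IsSolvable X]
    (n : ℕ) (h : Nat.card X ≤ n) : derivedSeries X n = ⊥ := by
  have key : ∀ m : ℕ, derivedSeries X m ≠ ⊥ →
      Nat.card (derivedSeries X m) + m ≤ Nat.card X := by
    intro m
    induction m with
    | zero => intro _; simpa using Subgroup.card_le_card_group _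
    | succ m ih =>
      intro hm
      have hm' : derivedSeries X m ≠ ⊥ := by
        intro h0
        apply hm
        rw [derivedSeries_succ, h0]
        simp
      have h1 := ih hm'
      have h2 : derivedSeries X (m + 1) < derivedSeries X m := by
        rw [derivedSeries_succ]
        exact Group.IsSolvable.commutator_lt_of_ne_bot hm'
      have h3 : Nat.card (derivedSeries X (m + 1)) < Nat.card (derivedSeries X m) := by
        have := Set.ncard_lt_ncard (SetLike.coe_ssubset_coe.mpr h2) (Set.toFinite _)
        rw [← Nat.card_coe_set_eq, ← Nat.card_coe_set_eq] at this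
        exact this
      omega
  have h0 : derivedSeries X (Nat.card X) = ⊥ := by
    by_contra hne
    have h1 := key _ hne
    have h2 : 0 < Nat.card (derivedSeries X (Nat.card X)) := Nat.card_pos
    omega
  exact le_bot_iff.mp (h0 ▸ derivedSeries_antitone X h)

/-- A solvable group acting on a set of size at most `n`: the `n!`-th derived subgroup acts
trivially. -/
theorem perm_trivial {Y Ω : Type*} [Group Y] [Group.IsSolvable Y] [Finite Ω]
    (f : Y →* Equiv.Perm Ω) (n : ℕ) (h : Nat.card Ω ≤ n) :
    ∀ y ∈ derivedSeries Y n.factorial, f y = 1 := by
  intro y hy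
  have hs : Group.IsSolvable f.range :=
    Group.isSolvable_of_surjective f.rangeRestrict_surjective
  have hc : Nat.card f.range ≤ n.factorial := by
    calc Nat.card f.range ≤ Nat.card (Equiv.Perm Ω) := Subgroup.card_le_card_group _
      _ = (Nat.card Ω).factorial := Nat.card_perm
      _ ≤ n.factorial := Nat.factorial_le h
  have h0 := derivedSeries_eq_bot_of_card_le (X := f.range) n.factorial hc
  have h1 : (derivedSeries Y n.factorial).map f.rangeRestrict = ⊥ := by
    rw [map_derivedSeries_eq f.rangeRestrict_surjective, h0]
  have h2 : f.rangeRestrict y ∈ (derivedSeries Y n.factorial).map f.rangeRestrict :=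
    Subgroup.mem_map_of_mem _ hy
  rw [h1, Subgroup.mem_bot] at h2
  exact congrArg Subtype.val h2

theorem derivedSeries_add {X : Type*} [Group X] (a m : ℕ) :
    derivedSeries X (a + m) = (derivedSeries (derivedSeries X a) m).map
      (derivedSeries X a).subtype := by
  induction m with
  | zero => simp [← MonoidHom.range_eq_map]
  | succ m ih =>
    rw [← add_assoc, derivedSeries_succ, derivedSeries_succ, ih, Subgroup.map_commutator]

theorem card_le_index_of_disjoint {G : Type*} [Group G] [Finite G] (A F : Subgroup G)
    (h : A ⊓ F = ⊥) : Nat.card A ≤ F.index := by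
  have h1 : F.relIndex A = Nat.card A := by
    rw [← inf_relIndex_left, h, relIndex_bot_left]
  rw [← h1]
  rw [← relIndex_top_right]
  exact relIndex_le_of_le_right le_top (by
    rw [relIndex_top_right]; exact index_ne_zero_of_finite)

end Pool.Agent.Helper7.TL
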