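import Pool.Agent.Helper7.TL.Lin

set_option autoImplicit false

open scoped commutatorElement

namespace Pool.Agent.Helper7.TL

open Subgroup

section fix

variable {X M : Type*} [Group X] [CommGroup M] (φ : X →* MulAut M)

/-- fixed subgroup of an element -/
def fx (x : X) : Subgroup M where
  carrier := {m | φ x m = m}
  mul_mem' := by intro a b ha hb; simp only [Set.mem_ofPred_eq] at *; rw [map_mul, ha, hb]
  one_mem' := by simp
  inv_mem' := by intro a ha; simp only [Set.mem_ofPred_eq] at *; rw [map_inv, ha]

/-- fixed subgroup of a subgroup -/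
def fxS (C : Subgroup X) : Subgroup M where
  carrier := {m | ∀ c ∈ C, φ c m = m}
  mul_mem' := by
    intro a b ha hb c hc; rw [map_mul, ha c hc, hb c hc]
  one_mem' := by intro c _; simp
  inv_mem' := by intro a ha c hc; rw [map_inv, ha c hc]

variable {φ}

theorem mem_fx {x : X} {m : M} : m ∈ fx φ x ↔ φ x m = m := Iff.rfl

theorem mem_fxS {C : Subgroup X} {m : M} : m ∈ fxS φ C ↔ ∀ c ∈ C, φ c m = m := Iff.rfl

theorem fx_inv (x : X) : fx φ x⁻¹ = fx φ x := by
  ext m
  rw [mem_fx, mem_fx]
  constructor
  · intro h
    have := congrArg (φ x) h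
    rw [← MulAut.mul_apply, ← map_mul] at this
    simpa using this.symm
  · intro h
    have := congrArg (φ x⁻¹) h
    rw [← MulAut.mul_apply, ← map_mul] at this
    simpa using this.symm

variable [Finite M]

theorem index_fx_mul (x y : X) :
    (fx φ (x * y)).index ≤ (fx φ x).index * (fx φ y).index := by
  refine le_trans ?_ index_inf_le
  apply Nat.le_of_dvd (Nat.pos_of_ne_zero index_ne_zero_of_finite)
  apply index_dvd_of_le
  intro m hm
  obtain ⟨h1, h2⟩ := Subgroup.mem_inf.mp hm
  rw [mem_fx] at *
  rw [map_mul, MulAut.mul_apply, h2, h1]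

omit [Finite M] in
theorem index_fx_conj (g x : X) : (fx φ (g * x * g⁻¹)).index = (fx φ x).index := by
  rw [← index_map_equiv (fx φ x) (φ g)]
  congr 1
  ext m
  rw [mem_fx, Subgroup.mem_map]
  constructor
  · intro h
    refine ⟨φ g⁻¹ m, ?_, ?_⟩
    · rw [mem_fx]
      have := congrArg (φ g⁻¹) h
      rw [← MulAut.mul_apply, ← map_mul] at this
      rw [← MulAut.mul_apply, ← map_mul]
      simpa [mul_assoc] using this
    · show φ g (φ g⁻¹ m) = m
      rw [← MulAut.mul_apply, ← map_mul]; simp
  · rintro ⟨n, hn, rfl⟩
    rw [mem_fx] at hn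
    show φ (g * x * g⁻¹) (φ g n) = φ g n
    rw [← MulAut.mul_apply, ← map_mul]
    have : g * x * g⁻¹ * g = g * x := by group
    rw [this, map_mul, MulAut.mul_apply, hn]

theorem index_fx_comm (x y : X) : (fx φ ⁅x, y⁆).index ≤ (fx φ y).index * (fx φ y).index := by
  rw [commutatorElement_def]
  refine le_trans (index_fx_mul _ _) ?_
  rw [index_fx_conj, fx_inv]

theorem index_fx_comm' (x y : X) : (fx φ ⁅x, y⁆).index ≤ (fx φ x).index * (fx φ x).index := by
  rw [commutatorElement_def]
  have : x * y * x⁻¹ * y⁻¹ = x * (y * x⁻¹ * y⁻¹) := by group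
  rw [this]
  refine le_trans (index_fx_mul _ _) ?_
  rw [index_fx_conj, fx_inv]

omit [Finite M] in
/-- Independence of fixed subgroups of maximal subgroups `B_j` of an abelian group. -/
theorem indep_fix {ι : Type*} (N : ι → Subgroup M) (Bf : ι → Subgroup X) (B : Subgroup X)
    (hB : ∀ x ∈ B, ∀ y ∈ B, x * y = y * x) (hN : Function.Injective N)
    (hle : ∀ i, Bf i ≤ B) (hNB : ∀ i, N i = fxS φ (Bf i))
    (hmax : ∀ i, ∀ C : Subgroup X, C ≤ B → Bf i ≤ C → fxS φ C ≠ ⊥ → C ≤ Bf i) : Indep N := by
  classical
  intro s
  induction s using Finset.induction_on with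
  | empty => intro v _ _ i hi; simp at hi
  | insert a s ha ih =>
    intro v hv hprod
    have hs : ∀ i ∈ s, v i = 1 := by
      intro i hi
      have hfixall : ∀ b ∈ Bf a, φ b (v i) = v i := by
        intro b hb
        have h1 := ih (fun i => φ b (v i) * (v i)⁻¹) ?_ ?_ i hi
        · exact mul_inv_eq_one.mp h1
        · intro j hj
          have h2 : v j ∈ N j := hv j (Finset.mem_insert_of_mem hj)
          refine (N j).mul_mem ?_ ((N j).inv_mem h2)
          rw [hNB, mem_fxS] at h2 ⊢
          intro c hc
          rw [← MulAut.mul_apply, ← map_mul, hB c (hle _ hc) b (hle _ hb), map_mul,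
            MulAut.mul_apply, h2 c hc]
        · have h3 : φ b (∏ i ∈ insert a s, v i) * (∏ i ∈ insert a s, v i)⁻¹ = 1 := by
            rw [hprod]; simp
          rw [map_prod, ← Finset.prod_inv_distrib, ← Finset.prod_mul_distrib,
            Finset.prod_insert ha] at h3
          have h4 : φ b (v a) = v a := by
            have := hv a (Finset.mem_insert_self _ _)
            rw [hNB, mem_fxS] at this
            exact this b hb
          rw [h4] at h3
          simpa using h3
      by_contra hne
      have h5 : v i ∈ fxS φ (Bf a ⊔ Bf i) := by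
        have h6 : v i ∈ N i := hv i (Finset.mem_insert_of_mem hi)
        rw [hNB, mem_fxS] at h6
        rw [mem_fxS]
        intro c hc
        have h7 : Bf a ⊔ Bf i ≤ (MulAction.stabilizer (MulAut M) (v i)).comap φ := by
          rw [sup_le_iff]
          constructor
          · intro x hx; exact hfixall x hx
          · intro x hx; exact h6 x hx
        exact h7 hc
      have h8 : fxS φ (Bf a ⊔ Bf i) ≠ ⊥ := by
        intro h0
        rw [h0, Subgroup.mem_bot] at h5
        exact hne h5
      have h9 : Bf a ⊔ Bf i ≤ B := sup_le (hle _) (hle _)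
      have h10 := hmax a _ h9 le_sup_left h8
      have h11 := hmax i _ h9 le_sup_right h8
      have h12 : Bf a = Bf i := le_antisymm (le_trans le_sup_left h11) (le_trans le_sup_right h10)
      have h13 : N a = N i := by rw [hNB, hNB, h12]
      exact ha (hN h13 ▸ hi)
    intro i hi
    rcases Finset.mem_insert.mp hi with rfl | hi
    · rw [Finset.prod_insert ha, Finset.prod_eq_one hs, mul_one] at hprod
      exact hprod
    · exact hs i hi

end fix

end Pool.Agent.Helper7.TL
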