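import Pool.Agent.Helper7.TL.Basic

set_option autoImplicit false

open scoped commutatorElement

namespace Pool.Agent.Helper7.TL

open Subgroup

section abstract

variable {M ι : Type*} [CommGroup M] [Finite M] [Finite ι] (N : ι → Subgroup M)

/-- independence of a family of subgroups -/
def Indep : Prop := ∀ s : Finset ι, ∀ v : ι → M, (∀ i ∈ s, v i ∈ N i) → ∏ i ∈ s, v i = 1 →
  ∀ i ∈ s, v i = 1

variable {N}

omit [Finite ι] in
theorem prod_card_le (hind : Indep N) (e : MulAut M) (π : Equiv.Perm ι)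
    (hπ : ∀ i, ∀ v ∈ N i, e v ∈ N (π i)) (F : Subgroup M) (hF : ∀ t ∈ F, e t = t)
    (J : Finset ι) (hJ : ∀ i ∈ J, π i ∉ J) : ∏ i ∈ J, Nat.card (N i) ≤ F.index := by
  classical
  have hcard : Nat.card ((i : J) → N i.1) = ∏ i ∈ J, Nat.card (N i) := by
    rw [Nat.card_pi, Finset.prod_coe_sort J (fun i => Nat.card (N i))]
  rw [← hcard]
  have hfin : Finite (M ⧸ F) := inferInstance
  unfold Subgroup.index
  refine Nat.card_le_card_of_injective
    (fun v : (i : J) → N i.1 => (QuotientGroup.mk (∏ i : J, (v i : M)) : M ⧸ F)) ?_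
  intro v w hvw
  have h1 : (∏ i : J, (v i : M))⁻¹ * ∏ i : J, (w i : M) ∈ F := QuotientGroup.eq.mp hvw
  -- difference
  let u : ι → M := fun i => if h : i ∈ J then (v ⟨i, h⟩ : M)⁻¹ * (w ⟨i, h⟩ : M) else 1
  have hu : ∀ i, u i ∈ N i := by
    intro i
    by_cases h : i ∈ J
    · simp only [u, h, dif_pos]
      exact (N i).mul_mem ((N i).inv_mem (v ⟨i, h⟩).2) (w ⟨i, h⟩).2
    · simp only [u, h, dif_neg, not_false_iff]
      exact (N i).one_mem
  have hprod : ∏ i ∈ J, u i = (∏ i : J, (v i : M))⁻¹ * ∏ i : J, (w i : M) := by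
    rw [← Finset.prod_coe_sort J u, ← Finset.prod_inv_distrib, ← Finset.prod_mul_distrib]
    refine Finset.prod_congr rfl ?_
    intro i _
    simp [u]
  have hfix : e (∏ i ∈ J, u i) = ∏ i ∈ J, u i := by
    rw [hprod]; exact hF _ h1
  -- use independence for J ∪ π J
  have hdisj : Disjoint J (J.image π) := by
    rw [Finset.disjoint_left]
    intro i hi hi'
    obtain ⟨j, hj, rfl⟩ := Finset.mem_image.mp hi'
    exact hJ j hj hi
  let z : ι → M := fun i => if i ∈ J then (u i)⁻¹ else e (u (π.symm i))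
  have hz : ∀ i ∈ J ∪ J.image π, z i ∈ N i := by
    intro i _
    by_cases h : i ∈ J
    · simp only [z, h, if_true]; exact (N i).inv_mem (hu i)
    · simp only [z, h, if_false]
      have := hπ (π.symm i) (u (π.symm i)) (hu _)
      simpa using this
  have hz1 : ∏ i ∈ J ∪ J.image π, z i = 1 := by
    rw [Finset.prod_union hdisj, Finset.prod_image (fun a _ b _ h => π.injective h)]
    have e1 : ∏ i ∈ J, z i = (∏ i ∈ J, u i)⁻¹ := by
      rw [← Finset.prod_inv_distrib]
      exact Finset.prod_congr rfl (fun i hi => by simp [z, hi])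
    have e2 : ∏ i ∈ J, z (π i) = e (∏ i ∈ J, u i) := by
      rw [map_prod]
      exact Finset.prod_congr rfl (fun i hi => by simp [z, hJ i hi])
    rw [e1, e2, hfix]; simp
  have hall := hind _ z hz hz1
  funext i
  have h2 := hall i.1 (Finset.mem_union_left _ i.2)
  simp only [z, i.2, if_true, u, dif_pos, inv_eq_one] at h2
  apply Subtype.ext
  have h3 : (v i : M)⁻¹ * (w i : M) = 1 := h2
  exact (inv_mul_eq_one.mp h3)

omit [Finite ι] in
theorem card_le_of_moved (hind : Indep N) (e : MulAut M) (π : Equiv.Perm ι)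
    (hπ : ∀ i, ∀ v ∈ N i, e v ∈ N (π i)) (F : Subgroup M) (hF : ∀ t ∈ F, e t = t)
    (i : ι) (hi : π i ≠ i) : Nat.card (N i) ≤ F.index := by
  have := prod_card_le hind e π hπ F hF {i} (by simpa using hi)
  simpa using this

/-- A permutation of a finite set: there is a third of the moved points disjoint from its image. -/
theorem exists_third (π : Equiv.Perm ι) : ∃ J : Finset ι, (∀ i ∈ J, π i ∉ J) ∧
    {i | π i ≠ i}.ncard ≤ 3 * J.card := by
  classical
  have hft := Fintype.ofFinite ι
  obtain ⟨J, hJ, hmax⟩ := (Set.toFinite {J : Finset ι | ∀ i ∈ J, π i ∉ J}).exists_maximalFor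
    Finset.card _ ⟨∅, by simp⟩
  refine ⟨J, hJ, ?_⟩
  have hsub : {i | π i ≠ i} ⊆ ((J ∪ J.image π ∪ J.image π.symm : Finset ι) : Set ι) := by
    intro i hi
    by_contra hn
    simp only [Finset.coe_union, Finset.coe_image, Set.mem_union, Finset.mem_coe, Set.mem_image,
      not_or, not_exists, not_and] at hn
    obtain ⟨⟨h1, h2⟩, h3⟩ := hn
    have hmem : insert i J ∈ {J : Finset ι | ∀ i ∈ J, π i ∉ J} := by
      intro a ha hb
      rw [Finset.mem_insert] at ha hb
      rcases ha with rfl | ha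
      · rcases hb with hb | hb
        · exact hi hb
        · exact h3 _ hb (by simp)
      · rcases hb with hb | hb
        · exact h2 _ ha hb
        · exact hJ a ha hb
    have := hmax hmem (by simp [h1])
    simp [h1] at this
  calc {i | π i ≠ i}.ncard ≤ ((J ∪ J.image π ∪ J.image π.symm : Finset ι) : Set ι).ncard :=
        Set.ncard_le_ncard hsub (Set.toFinite _)
    _ = (J ∪ J.image π ∪ J.image π.symm).card := Set.ncard_coe_finset _
    _ ≤ (J ∪ J.image π).card + (J.image π.symm).card := Finset.card_union_le _ _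
    _ ≤ 3 * J.card := by
        have a1 := Finset.card_image_le (s := J) (f := π)
        have a2 := Finset.card_image_le (s := J) (f := π.symm)
        have a3 := Finset.card_union_le J (J.image π)
        omega

theorem moved_le (hind : Indep N) (e : MulAut M) (π : Equiv.Perm ι)
    (hπ : ∀ i, ∀ v ∈ N i, e v ∈ N (π i)) (F : Subgroup M) (hF : ∀ t ∈ F, e t = t)
    (h2 : ∀ i, 2 ≤ Nat.card (N i)) : {i | π i ≠ i}.ncard ≤ 3 * F.index := by
  obtain ⟨J, hJ, hc⟩ := exists_third π
  have h3 := prod_card_le hind e π hπ F hF J hJ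
  have h4 : 2 ^ J.card ≤ ∏ i ∈ J, Nat.card (N i) := by
    rw [← Finset.prod_const]
    exact Finset.prod_le_prod' (fun i _ => h2 i)
  have h5 : J.card < 2 ^ J.card := Nat.lt_two_pow_self
  omega

end abstract

end Pool.Agent.Helper7.TL
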